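import Pool.Agent.K1H53.BI.Plan2
import Pool.Agent.K1H11.BI.Term

/-!
The frozen dynamics freezes (project BI, piece TERMF).
-/

set_option autoImplicit false

open scoped ENNReal
open Finset

namespace Pool.Agent.K1H3.BI

open Pool.Agent.K1H53.BI Pool.Agent.K1H11.BI

lemma stepF_act {ν : PMF ℕ} {R : ℕ} {s : St} (h : Act R s) :
    stepF ν R s = top ν (sel R s) ⟨s.A, s.L.erase (sel R s), s.m⟩ := by
  unfold stepF
  rw [if_pos h]

lemma stepF_nact {ν : PMF ℕ} {R : ℕ} {s : St} (h : ¬ Act R s) :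
    stepF ν R s = if s.m = 0 then PMF.pure s else PMF.pure (lau s) := by
  unfold stepF
  rw [if_neg h]

lemma Ex_top_m (ν : PMF ℕ) (x : V) (s : St) :
    Ex (top ν x s) (fun s' => (s'.m : ℝ≥0∞)) = s.m := by
  unfold top
  rw [Ex_bind]
  simp only [Ex_children_m, Ex_const]

/-- a launch is waiting -/
def QF (R : ℕ) (s : St) : Prop := ¬ Act R s ∧ s.m ≠ 0

lemma stepF_Q {ν : PMF ℕ} {R : ℕ} (s : St) :
    Ex (stepF ν R s) (fun s' => (s'.m : ℝ≥0∞)) + ind (QF R) s ≤ s.m := by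
  by_cases h : Act R s
  · rw [stepF_act h, Ex_top_m, ind_neg (fun hq => hq.1 h), add_zero]
  · rw [stepF_nact h]
    by_cases hm : s.m = 0
    · rw [if_pos hm, Ex_pure, ind_neg (fun hq => hq.2 hm), add_zero]
    · rw [if_neg hm, Ex_pure, ind_pos ⟨h, hm⟩]
      have : s.m = (s.m - 1) + 1 := by omega
      show (((s.m - 1 : ℕ)) : ℝ≥0∞) + 1 ≤ (s.m : ℝ≥0∞)
      conv_rhs => rw [this]
      rw [Nat.cast_add, Nat.cast_one]

/-- not frozen -/
def NF (R : ℕ) (s : St) : Prop := ¬ Froz R s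

lemma stepF_E {ν : PMF ℕ} {R : ℕ} (s : St) : Ex (stepF ν R s) (ind (NF R)) ≤ ind (NF R) s := by
  by_cases h : NF R s
  · rw [ind_pos h]
    exact Ex_le_one _ _
  · have hF : Froz R s := by
      by_contra hF
      exact h hF
    rw [stepF_nact hF.1, if_pos hF.2, Ex_pure]

lemma ind_NF_le (R : ℕ) (s : St) : ind (NF R) s ≤ ind (Act R) s + ind (QF R) s := by
  by_cases h : NF R s
  · rw [ind_pos h]
    by_cases hA : Act R s
    · rw [ind_pos (P := Act R) hA]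
      exact le_self_add
    · have hm : s.m ≠ 0 := fun hm => h ⟨hA, hm⟩
      rw [ind_pos (P := QF R) ⟨hA, hm⟩]
      exact le_add_self
  · rw [ind_neg h]
    exact zero_le

lemma sum_QF (ν : PMF ℕ) (R : ℕ) (s₀ : St) (n : ℕ) :
    ∑ u ∈ range n, Ex (run (stepF ν R) s₀ u) (ind (QF R)) +
      Ex (run (stepF ν R) s₀ n) (fun s => (s.m : ℝ≥0∞)) ≤ (s₀.m : ℝ≥0∞) := by
  induction n with
  | zero =>
    rw [Finset.sum_range_zero, zero_add]
    exact (Ex_pure _ _).le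
  | succ n ih =>
    rw [Finset.sum_range_succ]
    have h1 : Ex (run (stepF ν R) s₀ (n + 1)) (fun s => (s.m : ℝ≥0∞)) +
        Ex (run (stepF ν R) s₀ n) (ind (QF R)) ≤
        Ex (run (stepF ν R) s₀ n) (fun s => (s.m : ℝ≥0∞)) := by
      show Ex ((run (stepF ν R) s₀ n).bind (stepF ν R)) _ + _ ≤ _
      rw [Ex_bind, ← Ex_add]
      exact Ex_mono _ fun s _ => stepF_Q s
    calc _ = ∑ u ∈ range n, Ex (run (stepF ν R) s₀ u) (ind (QF R)) +
          (Ex (run (stepF ν R) s₀ (n + 1)) (fun s => (s.m : ℝ≥0∞)) +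
            Ex (run (stepF ν R) s₀ n) (ind (QF R))) := by
          rw [add_assoc, add_comm (Ex (run (stepF ν R) s₀ n) (ind (QF R)))]
      _ ≤ _ := (add_le_add le_rfl h1).trans ih

lemma anti_NF (ν : PMF ℕ) (R : ℕ) (s₀ : St) :
    Antitone fun n => Ex (run (stepF ν R) s₀ n) (ind (NF R)) := by
  refine antitone_nat_of_succ_le fun n => ?_
  show Ex ((run (stepF ν R) s₀ n).bind (stepF ν R)) _ ≤ _
  rw [Ex_bind]
  exact Ex_mono _ fun s _ => stepF_E s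

lemma bd_NF {ν : PMF ℕ} {R : ℕ} {s₀ : St} (hEN : ∀ n, ENF ν R s₀ n ≤ yy s₀ * (R + 1) ^ 2) (n : ℕ) :
    (n : ℝ≥0∞) * Ex (run (stepF ν R) s₀ n) (ind (NF R)) ≤ yy s₀ * (R + 1) ^ 2 + s₀.m := by
  have h1 : (n : ℝ≥0∞) * Ex (run (stepF ν R) s₀ n) (ind (NF R)) ≤
      ∑ u ∈ range n, Ex (run (stepF ν R) s₀ u) (ind (NF R)) := by
    have h := Finset.card_nsmul_le_sum (range n)
      (fun u => Ex (run (stepF ν R) s₀ u) (ind (NF R))) (Ex (run (stepF ν R) s₀ n) (ind (NF R)))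
      (fun u hu => anti_NF ν R s₀ (Finset.mem_range.1 hu).le)
    rw [Finset.card_range, nsmul_eq_mul] at h
    exact h
  have h2 : ∑ u ∈ range n, Ex (run (stepF ν R) s₀ u) (ind (NF R)) ≤
      ENF ν R s₀ n + ∑ u ∈ range n, Ex (run (stepF ν R) s₀ u) (ind (QF R)) := by
    unfold ENF
    rw [← Finset.sum_add_distrib]
    refine Finset.sum_le_sum fun u _ => ?_
    rw [← Ex_add]
    exact Ex_mono _ fun s _ => ind_NF_le R s
  exact h1.trans (h2.trans (add_le_add (hEN n) (le_self_add.trans (sum_QF ν R s₀ n))))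

/-- **TERMF** -/
theorem t_TERMF : S_TERMF := by
  intro hSum ν σ2 M R s₀ ε hOff hL hy hε
  obtain ⟨n₀, hn₀⟩ := exists_nat_gt (((yy s₀ : ℝ) * (R + 1) ^ 2 + s₀.m) / ε)
  refine ⟨n₀, fun n hn => ?_⟩
  have hn1 : ((yy s₀ : ℝ) * (R + 1) ^ 2 + s₀.m) / ε < n := hn₀.trans_le (by exact_mod_cast hn)
  have hn0 : (0 : ℝ) < n := lt_of_le_of_lt (by positivity) hn1
  have h1 := bd_NF (ν := ν) (R := R) (s₀ := s₀) (fun n => (hSum ν σ2 M R n s₀ hOff hL hy).2.1) n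
  have h2 : (yy s₀ : ℝ≥0∞) * (R + 1) ^ 2 + s₀.m = ENNReal.ofReal ((yy s₀ : ℝ) * (R + 1) ^ 2 + s₀.m) := by
    have : (yy s₀ : ℝ) * (R + 1) ^ 2 + s₀.m = ((yy s₀ * (R + 1) ^ 2 + s₀.m : ℕ) : ℝ) := by push_cast; ring
    rw [this, ENNReal.ofReal_natCast]
    push_cast
    ring
  rw [h2] at h1
  have h3 : ENNReal.ofReal ((yy s₀ : ℝ) * (R + 1) ^ 2 + s₀.m) ≤ (n : ℝ≥0∞) * ENNReal.ofReal ε := by
    rw [← ENNReal.ofReal_natCast n, ← ENNReal.ofReal_mul hn0.le]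
    refine ENNReal.ofReal_le_ofReal ?_
    rw [div_lt_iff₀ hε] at hn1
    exact hn1.le
  have h4 := h1.trans h3
  have hn0' : (n : ℝ≥0∞) ≠ 0 := by
    have : n ≠ 0 := by
      rintro rfl
      simp at hn0
    exact_mod_cast this
  exact (ENNReal.mul_le_mul_iff_right hn0' (ENNReal.natCast_ne_top n)).1 h4

end Pool.Agent.K1H3.BI
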